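import Mathlib

/-!
# Relative densities of sets of natural numbers
-/

set_option autoImplicit false

namespace Pool.Agent.Q307.RD

open Cardinal Filter Topology Set

/-- The number of elements of `B` below `n`. -/
noncomputable def cnt (B : Set ℕ) (n : ℕ) : ℕ := (B ∩ Iio n).ncard

/-- The quotient `|A ∩ B ∩ n| / |B ∩ n|`. -/
noncomputable def ratio (B A : Set ℕ) (n : ℕ) : ℝ := (cnt (A ∩ B) n : ℝ) / (cnt B n : ℝ)

/-- The relative density `d_B(A)` exists and equals `ρ`: the lower and the upper relative density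
of `A` in `B` both equal `ρ`. -/
def HasDensity (B A : Set ℕ) (ρ : ℝ) : Prop :=
  liminf (ratio B A) atTop = ρ ∧ limsup (ratio B A) atTop = ρ

/-- The `X`-reaping number for a set `X` of reals: the least size of a family `R` of infinite sets
of natural numbers such that for every infinite coinfinite `S` there is `B` in `R` such that
`d_B(S)` is not in `X`, i.e. either there is no relative density or it is outside of `X`. -/
noncomputable def reapingNumber (X : Set ℝ) : Cardinal.{0} :=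
  sInf {c | ∃ R : Set (Set ℕ), (∀ B ∈ R, B.Infinite) ∧
    (∀ S : Set ℕ, S.Infinite → Sᶜ.Infinite → ∃ B ∈ R, ¬ ∃ ρ ∈ X, HasDensity B S ρ) ∧ #R = c}

theorem fin_Iio (B : Set ℕ) (n : ℕ) : (B ∩ Iio n).Finite := (finite_Iio n).inter_of_right B

theorem cnt_mono {A B : Set ℕ} (h : A ⊆ B) (n : ℕ) : cnt A n ≤ cnt B n :=
  ncard_le_ncard (inter_subset_inter_left _ h) (fin_Iio B n)

theorem cnt_le (B : Set ℕ) (n : ℕ) : cnt B n ≤ n := by
  calc cnt B n ≤ (Iio n).ncard := ncard_le_ncard inter_subset_right (finite_Iio n)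
    _ = n := by rw [ncard_eq_toFinset_card']; simp

theorem cnt_union {A B : Set ℕ} (h : Disjoint A B) (n : ℕ) : cnt (A ∪ B) n = cnt A n + cnt B n := by
  unfold cnt
  rw [union_inter_distrib_right]
  exact ncard_union_eq (h.mono inter_subset_left inter_subset_left) (fin_Iio A n) (fin_Iio B n)

theorem cnt_mono_right (B : Set ℕ) {m n : ℕ} (h : m ≤ n) : cnt B m ≤ cnt B n :=
  ncard_le_ncard (inter_subset_inter_right _ (Iio_subset_Iio h)) (fin_Iio B n)

theorem cnt_split (B : Set ℕ) {m n : ℕ} (h : m ≤ n) :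
    cnt B n = cnt B m + (B ∩ Ico m n).ncard := by
  unfold cnt
  rw [← ncard_union_eq]
  · congr 1
    ext x
    simp only [mem_inter_iff, mem_Iio, mem_union, mem_Ico]
    constructor
    · rintro ⟨h1, h2⟩
      rcases lt_or_ge x m with h3 | h3
      · exact Or.inl ⟨h1, h3⟩
      · exact Or.inr ⟨h1, h3, h2⟩
    · rintro (⟨h1, h2⟩ | ⟨h1, h2, h3⟩)
      · exact ⟨h1, h2.trans_le h⟩
      · exact ⟨h1, h3⟩
  · rw [Set.disjoint_left]
    rintro x ⟨_, h1⟩ ⟨_, h2, _⟩
    exact absurd h1 (not_lt.mpr h2)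

theorem cnt_tendsto {B : Set ℕ} (hB : B.Infinite) : Tendsto (cnt B) atTop atTop := by
  rw [tendsto_atTop_atTop]
  intro b
  obtain ⟨t, ht, htc⟩ := hB.exists_subset_card_eq b
  obtain ⟨N, hN⟩ := t.bddAbove
  refine ⟨N + 1, fun n hn => ?_⟩
  have hsub : (t : Set ℕ) ⊆ B ∩ Iio n := fun x hx =>
    ⟨ht hx, mem_Iio.mpr (by have := hN hx; omega)⟩
  calc b = (t : Set ℕ).ncard := by rw [ncard_coe_finset, htc]
    _ ≤ cnt B n := ncard_le_ncard hsub (fin_Iio B n)

theorem ratio_nonneg (B A : Set ℕ) (n : ℕ) : 0 ≤ ratio B A n := by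
  unfold ratio; positivity

theorem ratio_le_one (B A : Set ℕ) (n : ℕ) : ratio B A n ≤ 1 := by
  unfold ratio
  apply div_le_one_of_le₀ _ (by positivity)
  exact_mod_cast cnt_mono inter_subset_right n

theorem hasDensity_iff {B A : Set ℕ} {ρ : ℝ} :
    HasDensity B A ρ ↔ Tendsto (ratio B A) atTop (𝓝 ρ) := by
  constructor
  · rintro ⟨h1, h2⟩
    refine tendsto_of_liminf_eq_limsup h1 h2 ?_ ?_
    · exact isBoundedUnder_of ⟨1, fun n => ratio_le_one B A n⟩
    · exact isBoundedUnder_of ⟨0, fun n => ratio_nonneg B A n⟩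
  · intro h
    exact ⟨h.liminf_eq, h.limsup_eq⟩

theorem inter_infinite {B A : Set ℕ} {ρ : ℝ} (hB : B.Infinite) (h : HasDensity B A ρ)
    (hρ : ρ ≠ 0) : (B ∩ A).Infinite := by
  rw [hasDensity_iff] at h
  intro hfin
  apply hρ
  refine tendsto_nhds_unique h ?_
  have h1 : Tendsto (fun n => ((B ∩ A).ncard : ℝ) / (cnt B n : ℝ)) atTop (𝓝 0) :=
    tendsto_const_nhds.div_atTop (tendsto_natCast_atTop_atTop.comp (cnt_tendsto hB))
  refine squeeze_zero (fun n => ratio_nonneg B A n) (fun n => ?_) h1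
  unfold ratio
  gcongr
  unfold cnt
  rw [inter_comm A B]
  exact ncard_le_ncard inter_subset_left hfin

/-- The relative density is multiplicative. -/
theorem HasDensity.mul {B W S : Set ℕ} {m ρ : ℝ} (h : HasDensity B W m)
    (h' : HasDensity (B ∩ W) S ρ) : HasDensity B (W ∩ S) (m * ρ) := by
  rw [hasDensity_iff] at *
  refine (h.mul h').congr fun n => ?_
  unfold ratio
  have e1 : W ∩ S ∩ B = S ∩ (B ∩ W) := by
    ext x; simp only [mem_inter_iff]; tauto
  have e2 : W ∩ B = B ∩ W := inter_comm _ _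
  rw [e1, e2]
  rcases Nat.eq_zero_or_pos (cnt (B ∩ W) n) with h0 | h0
  · have : cnt (S ∩ (B ∩ W)) n = 0 :=
      Nat.le_zero.mp (h0 ▸ cnt_mono inter_subset_right n)
    simp [h0, this]
  · have h1 : (cnt (B ∩ W) n : ℝ) ≠ 0 := by positivity
    field_simp

theorem HasDensity.diff {B W S : Set ℕ} {m ρ : ℝ} (h : HasDensity B W m)
    (h' : HasDensity B (W ∩ S) ρ) : HasDensity B (W \ S) (m - ρ) := by
  rw [hasDensity_iff] at *
  refine (h.sub h').congr fun n => ?_
  unfold ratio
  have : cnt (W ∩ B) n = cnt (W ∩ S ∩ B) n + cnt ((W \ S) ∩ B) n := by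
    rw [← cnt_union]
    · congr 1
      ext x; simp only [mem_inter_iff, mem_union, Set.mem_sdiff]; tauto
    · rw [Set.disjoint_left]
      rintro x ⟨⟨_, h1⟩, _⟩ ⟨⟨_, h2⟩, _⟩
      exact h2 h1
  rw [this]
  push_cast
  ring

theorem HasDensity.union {B T S : Set ℕ} {m ρ : ℝ} (hd : Disjoint T S) (h : HasDensity B T m)
    (h' : HasDensity B S ρ) : HasDensity B (T ∪ S) (m + ρ) := by
  rw [hasDensity_iff] at *
  refine (h.add h').congr fun n => ?_
  unfold ratio
  have : cnt ((T ∪ S) ∩ B) n = cnt (T ∩ B) n + cnt (S ∩ B) n := by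
    rw [← cnt_union, union_inter_distrib_right]
    exact hd.mono inter_subset_left inter_subset_left
  rw [this]
  push_cast
  ring

theorem hasDensity_univ {B : Set ℕ} (hB : B.Infinite) : HasDensity B univ 1 := by
  rw [hasDensity_iff]
  refine tendsto_const_nhds.congr' ?_
  filter_upwards [(cnt_tendsto hB).eventually_ge_atTop 1] with n hn
  unfold ratio
  rw [univ_inter]
  have : (cnt B n : ℝ) ≠ 0 := by positivity
  field_simp

theorem hasDensity_self {B : Set ℕ} (hB : B.Infinite) : HasDensity B B 1 := by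
  have h := hasDensity_univ hB
  rw [hasDensity_iff] at *
  refine h.congr fun n => ?_
  unfold ratio
  rw [univ_inter, inter_self]

theorem hasDensity_empty {B : Set ℕ} : HasDensity B ∅ 0 := by
  rw [hasDensity_iff]
  refine tendsto_const_nhds.congr fun n => ?_
  unfold ratio cnt
  simp

theorem HasDensity.unique {B A : Set ℕ} {ρ σ : ℝ} (h : HasDensity B A ρ)
    (h' : HasDensity B A σ) : ρ = σ := h.1.symm.trans h'.1

end Pool.Agent.Q307.RD
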