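import Mathlib
import Pool.Agent.Q307.RD.Basic

/-!
# Gluing two sets along fast growing blocks

For infinite sets `R`, `R'` of natural numbers there is an infinite set `Q` such that each set `S`
which has a relative density in all three of them has the same relative density in all of them.
-/

set_option autoImplicit false

namespace Pool.Agent.Q307.RD

open Cardinal Filter Topology Set

theorem exists_next {R R' : Set ℕ} (hR : R.Infinite) (hR' : R'.Infinite) (a k : ℕ) :
    ∃ b, a < b ∧ (k + 1) * (a + 1) ≤ (R ∩ Ico a b).ncard ∧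
      (k + 1) * (a + 1) ≤ (R' ∩ Ico a b).ncard := by
  have h1 := (cnt_tendsto hR).eventually_ge_atTop ((k + 1) * (a + 1) + cnt R a)
  have h2 := (cnt_tendsto hR').eventually_ge_atTop ((k + 1) * (a + 1) + cnt R' a)
  obtain ⟨b, hb1, hb2, hb3⟩ := (h1.and (h2.and (eventually_gt_atTop a))).exists
  refine ⟨b, hb3, ?_, ?_⟩
  · have := cnt_split R hb3.le
    omega
  · have := cnt_split R' hb3.le
    omega

/-- If two sets have the same elements in `[a, b)` and many elements there, then the relative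
densities below `b` are close. -/
theorem ratio_close {P Q S : Set ℕ} {a b k : ℕ} (hab : a ≤ b)
    (heq : P ∩ Ico a b = Q ∩ Ico a b) (hP : (k + 1) * (a + 1) ≤ (P ∩ Ico a b).ncard) :
    |ratio P S b - ratio Q S b| ≤ 2 / (k + 1) := by
  have hp := cnt_split P hab
  have hq := cnt_split Q hab
  have hsp := cnt_split (S ∩ P) hab
  have hsq := cnt_split (S ∩ Q) hab
  have e2 : S ∩ P ∩ Ico a b = S ∩ Q ∩ Ico a b := by
    rw [inter_assoc, heq, inter_assoc]
  rw [heq] at hp
  rw [e2] at hsp
  rw [heq] at hP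
  set u : ℕ := (Q ∩ Ico a b).ncard
  set v : ℕ := (S ∩ Q ∩ Ico a b).ncard
  have hvu : v ≤ u := by
    refine ncard_le_ncard ?_ ((finite_Ico a b).inter_of_right Q)
    exact inter_subset_inter_left _ inter_subset_right
  have b1 := cnt_le P a
  have b2 := cnt_le Q a
  have b3 := cnt_le (S ∩ P) a
  have b4 := cnt_le (S ∩ Q) a
  have hk : (0 : ℝ) < k + 1 := by positivity
  have ha : (0 : ℝ) ≤ a := by positivity
  have hu : ((k : ℝ) + 1) * (a + 1) ≤ u := by exact_mod_cast hP
  have hu0 : (0 : ℝ) < u := lt_of_lt_of_le (by positivity) hu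
  unfold ratio
  rw [hp, hq, hsp, hsq]
  push_cast
  set p : ℝ := ((cnt P a : ℕ) : ℝ)
  set q : ℝ := ((cnt Q a : ℕ) : ℝ)
  set s : ℝ := ((cnt (S ∩ P) a : ℕ) : ℝ)
  set t : ℝ := ((cnt (S ∩ Q) a : ℕ) : ℝ)
  have hp0 : 0 ≤ p := by positivity
  have hq0 : 0 ≤ q := by positivity
  have hs0 : 0 ≤ s := by positivity
  have ht0 : 0 ≤ t := by positivity
  have hpa : p ≤ a := by simp only [p]; exact_mod_cast b1
  have hqa : q ≤ a := by simp only [q]; exact_mod_cast b2
  have hsa : s ≤ a := by simp only [s]; exact_mod_cast b3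
  have hta : t ≤ a := by simp only [t]; exact_mod_cast b4
  have hvu' : (v : ℝ) ≤ u := by exact_mod_cast hvu
  have hv0 : (0 : ℝ) ≤ v := by positivity
  have hst : t ≤ q := by simp only [t, q]; exact_mod_cast cnt_mono inter_subset_right a
  -- estimate
  have key : (s + v) / (p + u) - (t + v) / (q + u) =
      (s - t) / (p + u) + (t + v) / (q + u) * ((q - p) / (p + u)) := by
    field_simp
    ring
  have h1 : |(s - t) / (p + u)| ≤ 1 / (k + 1) := by
    rw [abs_div, abs_of_pos (by positivity : (0 : ℝ) < p + u), div_le_div_iff₀ (by positivity) hk]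
    have : |s - t| ≤ a := abs_le.mpr ⟨by linarith, by linarith⟩
    nlinarith
  have h2 : |(q - p) / (p + u)| ≤ 1 / (k + 1) := by
    rw [abs_div, abs_of_pos (by positivity : (0 : ℝ) < p + u), div_le_div_iff₀ (by positivity) hk]
    have : |q - p| ≤ a := abs_le.mpr ⟨by linarith, by linarith⟩
    nlinarith
  have h3 : |(t + v) / (q + u)| ≤ 1 := by
    rw [abs_of_nonneg (by positivity)]
    apply div_le_one_of_le₀ _ (by positivity)
    linarith
  rw [key]
  calc |(s - t) / (p + u) + (t + v) / (q + u) * ((q - p) / (p + u))|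
      ≤ |(s - t) / (p + u)| + |(t + v) / (q + u) * ((q - p) / (p + u))| := abs_add_le _ _
    _ = |(s - t) / (p + u)| + |(t + v) / (q + u)| * |(q - p) / (p + u)| := by rw [abs_mul]
    _ ≤ 1 / (k + 1) + 1 * (1 / (k + 1)) := by
        gcongr
    _ = 2 / (k + 1) := by ring

/-- The alternating union of two sets along fast growing blocks. -/
theorem exists_glue {R R' : Set ℕ} (hR : R.Infinite) (hR' : R'.Infinite) :
    ∃ Q : Set ℕ, Q.Infinite ∧ ∀ (S : Set ℕ) (ρ ρ' σ : ℝ), HasDensity R S ρ →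
      HasDensity R' S ρ' → HasDensity Q S σ → ρ = σ ∧ ρ' = σ := by
  classical
  choose nx hnx1 hnx2 hnx3 using exists_next hR hR'
  let a : ℕ → ℕ := fun k => Nat.rec 0 (fun k ak => nx ak k) k
  have ha : ∀ k, a (k + 1) = nx (a k) k := fun k => rfl
  have hlt : ∀ k, a k < a (k + 1) := fun k => by rw [ha]; exact hnx1 _ _
  have hmono : StrictMono a := strictMono_nat_of_lt_succ hlt
  let Q : Set ℕ := {m | ∃ k, a k ≤ m ∧ m < a (k + 1) ∧ (if Even k then m ∈ R else m ∈ R')}
  have huniq : ∀ {m k l}, a k ≤ m → m < a (k + 1) → a l ≤ m → m < a (l + 1) → k = l := by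
    intro m k l h1 h2 h3 h4
    by_contra hne
    rcases Nat.lt_or_gt_of_ne hne with h | h
    · have := hmono.monotone (show k + 1 ≤ l from h)
      omega
    · have := hmono.monotone (show l + 1 ≤ k from h)
      omega
  have hev : ∀ k, Even k → Q ∩ Ico (a k) (a (k + 1)) = R ∩ Ico (a k) (a (k + 1)) := by
    intro k hk
    ext m
    constructor
    · rintro ⟨⟨l, h1, h2, h3⟩, h4, h5⟩
      have := huniq h1 h2 h4 h5
      subst this
      rw [if_pos hk] at h3
      exact ⟨h3, h4, h5⟩
    · rintro ⟨h3, h4, h5⟩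
      refine ⟨⟨k, h4, h5, ?_⟩, h4, h5⟩
      rw [if_pos hk]
      exact h3
  have hodd : ∀ k, ¬ Even k → Q ∩ Ico (a k) (a (k + 1)) = R' ∩ Ico (a k) (a (k + 1)) := by
    intro k hk
    ext m
    constructor
    · rintro ⟨⟨l, h1, h2, h3⟩, h4, h5⟩
      have := huniq h1 h2 h4 h5
      subst this
      rw [if_neg hk] at h3
      exact ⟨h3, h4, h5⟩
    · rintro ⟨h3, h4, h5⟩
      refine ⟨⟨k, h4, h5, ?_⟩, h4, h5⟩
      rw [if_neg hk]
      exact h3
  have hlim : Tendsto (fun k : ℕ => (2 : ℝ) / (k + 1)) atTop (𝓝 0) :=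
    tendsto_const_nhds.div_atTop (tendsto_natCast_atTop_atTop.atTop_add tendsto_const_nhds)
  have hcl1 : ∀ S k, |ratio R S (a (2 * k + 1)) - ratio Q S (a (2 * k + 1))| ≤ 2 / (k + 1) := by
    intro S k
    have h := ratio_close (P := R) (Q := Q) (S := S) (k := 2 * k) (hlt (2 * k)).le
      (hev (2 * k) (by simp)).symm (by rw [ha]; exact hnx2 _ _)
    refine h.trans ?_
    push_cast
    gcongr
    have : (0 : ℝ) ≤ k := by positivity
    linarith
  have hcl2 : ∀ S k, |ratio R' S (a (2 * k + 1 + 1)) - ratio Q S (a (2 * k + 1 + 1))| ≤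
      2 / (k + 1) := by
    intro S k
    have h := ratio_close (P := R') (Q := Q) (S := S) (k := 2 * k + 1) (hlt (2 * k + 1)).le
      (hodd (2 * k + 1) (by simp)).symm (by rw [ha]; exact hnx3 _ _)
    refine h.trans ?_
    push_cast
    gcongr
    have : (0 : ℝ) ≤ k := by positivity
    linarith
  have ht1 : Tendsto (fun k => a (2 * k + 1)) atTop atTop :=
    hmono.tendsto_atTop.comp (tendsto_atTop_mono (fun k => by omega : ∀ k, k ≤ 2 * k + 1)
      tendsto_id)
  have ht2 : Tendsto (fun k => a (2 * k + 1 + 1)) atTop atTop :=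
    hmono.tendsto_atTop.comp (tendsto_atTop_mono (fun k => by omega : ∀ k, k ≤ 2 * k + 1 + 1)
      tendsto_id)
  refine ⟨Q, ?_, ?_⟩
  · intro hfin
    obtain ⟨N, hN⟩ := hfin.bddAbove
    obtain ⟨k, hk⟩ : ∃ k, N < a (2 * k) :=
      ⟨N + 1, lt_of_lt_of_le (by omega : N < 2 * (N + 1)) hmono.le_apply⟩
    have h1 := hnx2 (a (2 * k)) (2 * k)
    rw [← ha, ← hev (2 * k) (by simp)] at h1
    have h2 : 0 < (Q ∩ Ico (a (2 * k)) (a (2 * k + 1))).ncard :=
      lt_of_lt_of_le (by positivity) h1
    obtain ⟨m, hm⟩ := (ncard_pos ((finite_Ico _ _).inter_of_right Q)).mp h2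
    have := hN hm.1
    have := hm.2.1
    omega
  · intro S ρ ρ' σ h1 h2 h3
    rw [hasDensity_iff] at h1 h2 h3
    constructor
    · have e1 := (h1.comp ht1).sub (h3.comp ht1)
      have e2 : Tendsto (fun k => ratio R S (a (2 * k + 1)) - ratio Q S (a (2 * k + 1)))
          atTop (𝓝 0) := squeeze_zero_norm (fun k => hcl1 S k) hlim
      have := tendsto_nhds_unique e1 e2
      linarith
    · have e1 := (h2.comp ht2).sub (h3.comp ht2)
      have e2 : Tendsto (fun k => ratio R' S (a (2 * k + 1 + 1)) - ratio Q S (a (2 * k + 1 + 1)))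
          atTop (𝓝 0) := squeeze_zero_norm (fun k => hcl2 S k) hlim
      have := tendsto_nhds_unique e1 e2
      linarith

end Pool.Agent.Q307.RD
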