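import Mathlib
import Pool.Agent.Q307.RD.Pair

/-!
# Families on which some set has a constant density
-/

set_option autoImplicit false

namespace Pool.Agent.Q307.RD

open Cardinal Filter Topology Set

/-- Every family of at most `lam` infinite sets has an infinite coinfinite set with relative
densities in `(0, 1)`. -/
def Good (lam : Cardinal.{0}) : Prop :=
  ∀ R : Set (Set ℕ), (∀ B ∈ R, B.Infinite) → #R ≤ lam →
    ∃ S : Set ℕ, ∀ B ∈ R, ∃ ρ ∈ Ioo (0 : ℝ) 1, HasDensity B S ρ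

theorem good_of_lt {lam : Cardinal.{0}} (h : lam < reapingNumber (Ioo 0 1)) : Good lam := by
  intro R hR hc
  by_contra hcon
  push Not at hcon
  have hmem : #R ∈ {c | ∃ R : Set (Set ℕ), (∀ B ∈ R, B.Infinite) ∧
    (∀ S : Set ℕ, S.Infinite → Sᶜ.Infinite → ∃ B ∈ R, ¬ ∃ ρ ∈ Ioo (0 : ℝ) 1, HasDensity B S ρ) ∧
      #R = c} := by
    refine ⟨R, hR, fun S _ _ => ?_, rfl⟩
    obtain ⟨B, hB, hBS⟩ := hcon S
    exact ⟨B, hB, fun ⟨ρ, h1, h2⟩ => hBS ρ h1 h2⟩
  have := csInf_le' hmem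
  exact absurd (this.trans hc) (not_le.mpr h)

/-- Constant densities. -/
theorem Good.const {lam : Cardinal.{0}} (h : Good lam) (hlam : ℵ₀ ≤ lam)
    (R : Set (Set ℕ)) (hR : ∀ B ∈ R, B.Infinite) (hc : #R ≤ lam) :
    ∃ S : Set ℕ, ∃ ρ ∈ Ioo (0 : ℝ) 1, ∀ B ∈ R, HasDensity B S ρ := by
  classical
  rcases R.eq_empty_or_nonempty with rfl | ⟨B0, hB0⟩
  · exact ⟨∅, 1 / 2, ⟨by norm_num, by norm_num⟩, fun B hB => absurd hB (notMem_empty B)⟩
  choose! Q hQ1 hQ2 using fun (p : Set ℕ × Set ℕ) (h : p.1.Infinite ∧ p.2.Infinite) =>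
    exists_glue h.1 h.2
  have hcQ : #(Q '' (R ×ˢ R)) ≤ lam := by
    refine mk_image_le.trans ?_
    rw [mk_setProd]
    calc #R * #R ≤ lam * lam := mul_le_mul' hc hc
      _ = lam := mul_eq_self hlam
  obtain ⟨S, hS⟩ := h (R ∪ Q '' (R ×ˢ R)) (by
      rintro B (hB | ⟨p, hp, rfl⟩)
      · exact hR B hB
      · exact hQ1 p ⟨hR _ hp.1, hR _ hp.2⟩) (by
      refine (mk_union_le _ _).trans ?_
      calc #R + #(Q '' (R ×ˢ R)) ≤ lam + lam := add_le_add hc hcQ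
        _ = lam := add_eq_self hlam)
  obtain ⟨ρ, hρ, hd⟩ := hS B0 (Or.inl hB0)
  refine ⟨S, ρ, hρ, fun B hB => ?_⟩
  obtain ⟨σ, hσ, hd'⟩ := hS B (Or.inl hB)
  obtain ⟨τ, hτ, hd''⟩ := hS (Q (B0, B)) (Or.inr ⟨(B0, B), ⟨hB0, hB⟩, rfl⟩)
  obtain ⟨e1, e2⟩ := hQ2 (B0, B) ⟨hR _ hB0, hR _ hB⟩ S ρ σ τ hd hd' hd''
  rw [e1, ← e2]
  exact hd'

/-- The constant density can be bounded away from `0` and `1`, uniformly for all families. -/
theorem Good.uniform {lam : Cardinal.{0}} (h : Good lam) (hlam : ℵ₀ ≤ lam) :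
    ∃ ε > (0 : ℝ), ∀ R : Set (Set ℕ), (∀ B ∈ R, B.Infinite) → #R ≤ lam →
      ∃ S : Set ℕ, ∃ ρ ∈ Icc ε (1 - ε), ∀ B ∈ R, HasDensity B S ρ := by
  by_contra hcon
  push Not at hcon
  have hpos : ∀ n : ℕ, (0 : ℝ) < 1 / (n + 1) := fun n => by positivity
  choose R hR hc hbad using fun n : ℕ => hcon (1 / (n + 1)) (hpos n)
  obtain ⟨S, ρ, hρ, hd⟩ := h.const hlam (⋃ n, R n) (by
      intro B hB
      obtain ⟨n, hn⟩ := mem_iUnion.mp hB
      exact hR n B hn) (by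
      refine (mk_iUnion_le _).trans ?_
      calc #ℕ * ⨆ i, #(R i) ≤ lam * lam := by
            gcongr
            · rw [mk_nat]; exact hlam
            · exact ciSup_le' hc
        _ = lam := mul_eq_self hlam)
  have hlim : Tendsto (fun n : ℕ => (1 : ℝ) / (n + 1)) atTop (𝓝 0) :=
    tendsto_one_div_add_atTop_nhds_zero_nat
  have h1 : ∀ᶠ n : ℕ in atTop, (1 : ℝ) / (n + 1) < ρ := hlim.eventually_lt_const hρ.1
  have h2 : ∀ᶠ n : ℕ in atTop, (1 : ℝ) / (n + 1) < 1 - ρ :=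
    hlim.eventually_lt_const (by linarith [hρ.2])
  obtain ⟨n, hn1, hn2⟩ := (h1.and h2).exists
  obtain ⟨B, hB, hBd⟩ := hbad n S ρ ⟨hn1.le, by linarith⟩
  exact hBd (hd B (mem_iUnion.mpr ⟨n, hB⟩))

/-- The state of the recursion. -/
structure State (R : Set (Set ℕ)) (τ : ℝ) where
  /-- the part which is decided to be in the set -/
  T : Set ℕ
  /-- the undecided part -/
  W : Set ℕ
  /-- the density of the first part -/
  u : ℝ
  /-- the density of the undecided part -/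
  m : ℝ
  disj : Disjoint T W
  dT : ∀ B ∈ R, HasDensity B T u
  dW : ∀ B ∈ R, HasDensity B W m
  mpos : 0 < m
  le1 : u ≤ τ
  le2 : τ ≤ u + m

theorem State.step {R : Set (Set ℕ)} {τ ε : ℝ} (hR : ∀ B ∈ R, B.Infinite) {lam : Cardinal.{0}}
    (hlam : #R ≤ lam) (hε : 0 < ε)
    (hun : ∀ R : Set (Set ℕ), (∀ B ∈ R, B.Infinite) → #R ≤ lam →
      ∃ S : Set ℕ, ∃ ρ ∈ Icc ε (1 - ε), ∀ B ∈ R, HasDensity B S ρ) (s : State R τ) :
    ∃ s' : State R τ, s.T ⊆ s'.T ∧ s'.T ⊆ s.T ∪ s.W ∧ s'.W ⊆ s.W ∧ s'.m ≤ (1 - ε) * s.m := by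
  obtain ⟨S, ρ, hρ, hd⟩ := hun ((fun B => B ∩ s.W) '' R) (by
      rintro _ ⟨B, hB, rfl⟩
      exact inter_infinite (hR B hB) (s.dW B hB) s.mpos.ne') (mk_image_le.trans hlam)
  have h1 : ∀ B ∈ R, HasDensity B (s.W ∩ S) (s.m * ρ) := fun B hB =>
    (s.dW B hB).mul (hd _ ⟨B, hB, rfl⟩)
  have h2 : ∀ B ∈ R, HasDensity B (s.W \ S) (s.m - s.m * ρ) := fun B hB =>
    (s.dW B hB).diff (h1 B hB)
  have hm := s.mpos
  have hdW : Disjoint s.T (s.W ∩ S) := s.disj.mono_right inter_subset_left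
  rcases le_or_gt τ (s.u + s.m * ρ) with hτ | hτ
  · refine ⟨⟨s.T, s.W ∩ S, s.u, s.m * ρ, hdW, s.dT, h1, ?_, s.le1, hτ⟩, subset_rfl,
      subset_union_left, inter_subset_left, ?_⟩
    · exact mul_pos hm (hε.trans_le hρ.1)
    · show s.m * ρ ≤ (1 - ε) * s.m
      nlinarith [hρ.2]
  · refine ⟨⟨s.T ∪ (s.W ∩ S), s.W \ S, s.u + s.m * ρ, s.m - s.m * ρ, ?_, fun B hB =>
      (s.dT B hB).union hdW (h1 B hB), h2, ?_, hτ.le, ?_⟩, subset_union_left,
      union_subset_union_right _ inter_subset_left, Set.sdiff_subset, ?_⟩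
    · rw [disjoint_union_left]
      refine ⟨s.disj.mono_right Set.sdiff_subset, ?_⟩
      rw [Set.disjoint_left]
      rintro x ⟨_, hx⟩ ⟨_, hx'⟩
      exact hx' hx
    · nlinarith [hρ.2]
    · linarith [s.le2]
    · show s.m - s.m * ρ ≤ (1 - ε) * s.m
      nlinarith [hρ.1]

/-- Every density can be realised. -/
theorem Good.exact {lam : Cardinal.{0}} (h : Good lam) (hlam : ℵ₀ ≤ lam) {τ : ℝ}
    (hτ : τ ∈ Icc (0 : ℝ) 1)
    (R : Set (Set ℕ)) (hR : ∀ B ∈ R, B.Infinite) (hc : #R ≤ lam) :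
    ∃ T : Set ℕ, ∀ B ∈ R, HasDensity B T τ := by
  obtain ⟨ε, hε, hun⟩ := h.uniform hlam
  have hε1 : ε ≤ 1 / 2 := by
    obtain ⟨S, ρ, hρ, -⟩ := hun ∅ (fun B hB => absurd hB (notMem_empty B)) (by simp)
    have := hρ.1.trans hρ.2
    linarith
  let s0 : State R τ := ⟨∅, univ, 0, 1, by simp, fun B _ => hasDensity_empty,
    fun B hB => hasDensity_univ (hR B hB), one_pos, hτ.1, by linarith [hτ.2]⟩
  choose nx hn1 hn2 hn3 hn4 using State.step (τ := τ) hR hc hε hun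
  let s : ℕ → State R τ := fun n => Nat.rec s0 (fun _ t => nx t) n
  have hs : ∀ n, s (n + 1) = nx (s n) := fun n => rfl
  have hm : ∀ n, (s n).m ≤ (1 - ε) ^ n := by
    intro n
    induction n with
    | zero => show (1 : ℝ) ≤ _; simp
    | succ n ih =>
      rw [hs, pow_succ, mul_comm]
      refine (hn4 (s n)).trans ?_
      have : 0 ≤ 1 - ε := by linarith
      gcongr
  have hT : ∀ n k, (s (n + k)).T ∪ (s (n + k)).W ⊆ (s n).T ∪ (s n).W := by
    intro n k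
    induction k with
    | zero => exact subset_rfl
    | succ k ih =>
      refine subset_trans ?_ ih
      rw [← add_assoc, hs]
      exact union_subset (hn2 _) ((hn3 _).trans subset_union_right)
  have hT' : ∀ n k, (s n).T ⊆ (s (n + k)).T := by
    intro n k
    induction k with
    | zero => exact subset_rfl
    | succ k ih =>
      refine ih.trans ?_
      rw [← add_assoc, hs]
      exact hn1 _
  refine ⟨⋃ n, (s n).T, fun B hB => ?_⟩
  have hlow : ∀ n k, ratio B (s n).T k ≤ ratio B (⋃ n, (s n).T) k := by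
    intro n k
    unfold ratio
    gcongr
    exact cnt_mono (inter_subset_inter_left _ (subset_iUnion (fun n => (s n).T) n)) k
  have hup : ∀ n k, ratio B (⋃ n, (s n).T) k ≤ ratio B ((s n).T ∪ (s n).W) k := by
    intro n k
    unfold ratio
    gcongr
    refine cnt_mono (inter_subset_inter_left _ (iUnion_subset fun l => ?_)) k
    rcases le_total l n with hl | hl
    · obtain ⟨d, rfl⟩ := Nat.exists_eq_add_of_le hl
      exact (hT' l d).trans subset_union_left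
    · obtain ⟨d, rfl⟩ := Nat.exists_eq_add_of_le hl
      exact subset_union_left.trans (hT n d)
  rw [hasDensity_iff, Metric.tendsto_atTop]
  intro δ hδ
  have hlim : Tendsto (fun n : ℕ => (1 - ε) ^ n) atTop (𝓝 0) :=
    tendsto_pow_atTop_nhds_zero_of_lt_one (by linarith) (by linarith)
  obtain ⟨n, hn⟩ := (hlim.eventually_lt_const (half_pos hδ)).exists
  have hm' : (s n).m < δ / 2 := (hm n).trans_lt hn
  have d1 := hasDensity_iff.mp ((s n).dT B hB)
  have d2 := hasDensity_iff.mp (((s n).dT B hB).union (s n).disj ((s n).dW B hB))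
  obtain ⟨N1, hN1⟩ := (Metric.tendsto_atTop.mp d1) (δ / 2) (half_pos hδ)
  obtain ⟨N2, hN2⟩ := (Metric.tendsto_atTop.mp d2) (δ / 2) (half_pos hδ)
  refine ⟨max N1 N2, fun k hk => ?_⟩
  have a1 := hN1 k (le_of_max_le_left hk)
  have a2 := hN2 k (le_of_max_le_right hk)
  rw [Real.dist_eq, abs_lt] at a1 a2 ⊢
  have b1 := hlow n k
  have b2 := hup n k
  have c1 := (s n).le1
  have c2 := (s n).le2
  constructor <;> linarith [a1.1, a1.2, a2.1, a2.2]

end Pool.Agent.Q307.RD
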