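import Mathlib
import Pool.Agent.Q307.RD.Basic

/-!
# Finitely many sets
-/

set_option autoImplicit false

namespace Pool.Agent.Q307.RD

open Cardinal Filter Topology Set

/-- For each set `A` and each `τ` there is a subset `T` of `A` with `⌊|A ∩ n| τ⌋` elements
below `n`. -/
theorem exists_beatty (A : Set ℕ) {τ : ℝ} (hτ : τ ∈ Icc (0 : ℝ) 1) :
    ∃ T ⊆ A, ∀ n, cnt T n = ⌊(cnt A n : ℝ) * τ⌋₊ := by
  classical
  let T : Set ℕ := {m | m ∈ A ∧ ⌊(cnt A m : ℝ) * τ⌋₊ < ⌊((cnt A m : ℝ) + 1) * τ⌋₊}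
  have hsucc : ∀ (B : Set ℕ) (n : ℕ), cnt B (n + 1) = cnt B n + (if n ∈ B then 1 else 0) := by
    intro B n
    rw [cnt_split B (Nat.le_succ n)]
    congr 1
    split_ifs with h
    · have : B ∩ Ico n (n + 1) = {n} := by
        ext x
        simp only [mem_inter_iff, mem_Ico, mem_singleton_iff]
        constructor
        · rintro ⟨_, h1, h2⟩; omega
        · rintro rfl; exact ⟨h, by omega, by omega⟩
      rw [Nat.succ_eq_add_one, this, ncard_singleton]
    · have : B ∩ Ico n (n + 1) = ∅ := by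
        ext x
        simp only [mem_inter_iff, mem_Ico, mem_empty_iff_false, iff_false]
        rintro ⟨h1, h2, h3⟩
        have : x = n := by omega
        exact h (this ▸ h1)
      rw [Nat.succ_eq_add_one, this, ncard_empty]
  refine ⟨T, fun m hm => hm.1, fun n => ?_⟩
  induction n with
  | zero => simp [cnt]
  | succ n ih =>
    rw [hsucc, hsucc, ih]
    by_cases hA : n ∈ A
    · rw [if_pos hA]
      push_cast
      have hle : ⌊(cnt A n : ℝ) * τ⌋₊ ≤ ⌊((cnt A n : ℝ) + 1) * τ⌋₊ := by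
        apply Nat.floor_le_floor
        nlinarith [hτ.1]
      have hle2 : ⌊((cnt A n : ℝ) + 1) * τ⌋₊ ≤ ⌊(cnt A n : ℝ) * τ⌋₊ + 1 := by
        have h1 : ((cnt A n : ℝ) + 1) * τ ≤ (cnt A n : ℝ) * τ + 1 := by nlinarith [hτ.2]
        refine (Nat.floor_le_floor h1).trans ?_
        rw [Nat.floor_add_one (mul_nonneg (by positivity) hτ.1)]
      by_cases hT : ⌊(cnt A n : ℝ) * τ⌋₊ < ⌊((cnt A n : ℝ) + 1) * τ⌋₊
      · rw [if_pos (show n ∈ T from ⟨hA, hT⟩)]
        omega
      · rw [if_neg (show n ∉ T from fun h => hT h.2)]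
        omega
    · rw [if_neg hA, if_neg (show n ∉ T from fun h => hA h.1)]
      simp

/-- The finite case: for finitely many sets of natural numbers all densities can be realised. -/
theorem exists_of_finite {R : Set (Set ℕ)} (hfin : R.Finite) (hR : ∀ B ∈ R, B.Infinite) {τ : ℝ}
    (hτ : τ ∈ Icc (0 : ℝ) 1) : ∃ T : Set ℕ, ∀ B ∈ R, HasDensity B T τ := by
  classical
  -- the type of a number is the set of the members of `R` to which it belongs
  let F : Finset (Set ℕ) := hfin.toFinset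
  let A : Finset (Set ℕ) → Set ℕ := fun θ => {n | F.filter (fun B => n ∈ B) = θ}
  have hdisj : ∀ θ θ', θ ≠ θ' → Disjoint (A θ) (A θ') := by
    intro θ θ' hne
    rw [Set.disjoint_left]
    intro x h1 h2
    exact hne (h1.symm.trans h2)
  choose T hT1 hT2 using fun θ => exists_beatty (A θ) hτ
  refine ⟨⋃ θ ∈ F.powerset, T θ, fun B hB => ?_⟩
  have hBF : B ∈ F := hfin.mem_toFinset.mpr hB
  let P : Finset (Finset (Set ℕ)) := F.powerset.filter (fun θ => B ∈ θ)
  have hcntU : ∀ (G : Finset (Set ℕ) → Set ℕ) (hG : ∀ θ, G θ ⊆ A θ) (P : Finset (Finset (Set ℕ)))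
      (n : ℕ), cnt (⋃ θ ∈ P, G θ) n = ∑ θ ∈ P, cnt (G θ) n := by
    intro G hG P n
    induction P using Finset.induction_on with
    | empty => simp [cnt]
    | insert θ P hθ ih =>
      rw [Finset.set_biUnion_insert, cnt_union, ih, Finset.sum_insert hθ]
      rw [Set.disjoint_iUnion₂_right]
      intro θ' hθ'
      refine (hdisj θ θ' ?_).mono (hG θ) (hG θ')
      rintro rfl
      exact hθ hθ'
  have e1 : B = ⋃ θ ∈ P, A θ := by
    ext x
    simp only [mem_iUnion, exists_prop]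
    constructor
    · intro hx
      refine ⟨F.filter (fun C => x ∈ C), ?_, rfl⟩
      simp only [P, Finset.mem_filter, Finset.mem_powerset]
      exact ⟨Finset.filter_subset _ _, hBF, hx⟩
    · rintro ⟨θ, hθ, hx⟩
      have h1 := (Finset.mem_filter.mp hθ).2
      have h2 : F.filter (fun C => x ∈ C) = θ := hx
      rw [← h2] at h1
      exact (Finset.mem_filter.mp h1).2
  have e2 : (⋃ θ ∈ F.powerset, T θ) ∩ B = ⋃ θ ∈ P, T θ := by
    ext x
    simp only [mem_inter_iff, mem_iUnion, exists_prop]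
    constructor
    · rintro ⟨⟨θ, hθ, hx⟩, hxB⟩
      refine ⟨θ, ?_, hx⟩
      have h2 : F.filter (fun C => x ∈ C) = θ := hT1 θ hx
      simp only [P, Finset.mem_filter]
      refine ⟨hθ, ?_⟩
      rw [← h2]
      exact Finset.mem_filter.mpr ⟨hBF, hxB⟩
    · rintro ⟨θ, hθ, hx⟩
      refine ⟨⟨θ, (Finset.mem_filter.mp hθ).1, hx⟩, ?_⟩
      rw [e1]
      simp only [mem_iUnion, exists_prop]
      exact ⟨θ, hθ, hT1 θ hx⟩
  have hc1 : ∀ n, cnt B n = ∑ θ ∈ P, cnt (A θ) n := fun n => by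
    conv_lhs => rw [e1]
    exact hcntU A (fun θ => subset_rfl) P n
  have hc2 : ∀ n, cnt ((⋃ θ ∈ F.powerset, T θ) ∩ B) n = ∑ θ ∈ P, ⌊(cnt (A θ) n : ℝ) * τ⌋₊ :=
    fun n => by
      rw [e2, hcntU T hT1 P n]
      exact Finset.sum_congr rfl fun θ _ => hT2 θ n
  rw [hasDensity_iff]
  have hup : ∀ n, ((cnt ((⋃ θ ∈ F.powerset, T θ) ∩ B) n : ℕ) : ℝ) ≤ cnt B n * τ := by
    intro n
    rw [hc2, hc1]
    push_cast
    rw [Finset.sum_mul]
    exact Finset.sum_le_sum fun θ _ => Nat.floor_le (mul_nonneg (by positivity) hτ.1)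
  have hlow : ∀ n, (cnt B n * τ : ℝ) - P.card ≤ (cnt ((⋃ θ ∈ F.powerset, T θ) ∩ B) n : ℕ) := by
    intro n
    rw [hc2, hc1]
    push_cast
    rw [Finset.sum_mul, sub_le_iff_le_add]
    calc ∑ θ ∈ P, (cnt (A θ) n : ℝ) * τ ≤ ∑ θ ∈ P, ((⌊(cnt (A θ) n : ℝ) * τ⌋₊ : ℝ) + 1) :=
          Finset.sum_le_sum fun θ _ => (Nat.lt_floor_add_one _).le
      _ = _ := by rw [Finset.sum_add_distrib]; simp
  have hB' : Tendsto (fun n => (cnt B n : ℝ)) atTop atTop :=
    tendsto_natCast_atTop_atTop.comp (cnt_tendsto (hR B hB))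
  have hpos : ∀ᶠ n in atTop, (0 : ℝ) < cnt B n := hB'.eventually_gt_atTop 0
  have hlim : Tendsto (fun n => τ - (P.card : ℝ) / (cnt B n : ℝ)) atTop (𝓝 (τ - 0)) :=
    tendsto_const_nhds.sub (tendsto_const_nhds.div_atTop hB')
  rw [sub_zero] at hlim
  refine tendsto_of_tendsto_of_tendsto_of_le_of_le' hlim tendsto_const_nhds ?_ ?_
  · filter_upwards [hpos] with n hn
    unfold ratio
    rw [le_div_iff₀ hn]
    have := hlow n
    have e : (τ - (P.card : ℝ) / (cnt B n : ℝ)) * (cnt B n : ℝ) = cnt B n * τ - P.card := by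
      field_simp
    rw [e]
    exact this
  · filter_upwards [hpos] with n hn
    unfold ratio
    rw [div_le_iff₀ hn, mul_comm]
    exact hup n

end Pool.Agent.Q307.RD
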